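import Mathlib

/-!
# Project GL (MP_05dcdc_nt): block DE, the combinatorial part

A matrix with entries `±1` off the diagonal: some diagonal makes it non-degenerate, some diagonal makes the
kernel of order two.
-/

set_option autoImplicit false

namespace Pool.Agent.GL

open Finset

/-- the value of the character number `p` at the set `x` -/
def de_B (a : ℕ → ℕ → ℤ) (δ : ℕ → ℤ) (x : Finset ℕ) (p : ℕ) : ℤ :=
  ∏ r ∈ x, if r = p then δ p else a r p

theorem de_symm (f : ℕ → ℤ) (hf : ∀ r, f r = 1 ∨ f r = -1) (x y : Finset ℕ) :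
    ∏ r ∈ symmDiff x y, f r = (∏ r ∈ x, f r) * ∏ r ∈ y, f r := by
  have h1 : ∏ r ∈ symmDiff x y, f r = (∏ r ∈ x \ y, f r) * ∏ r ∈ y \ x, f r := by
    rw [show symmDiff x y = (x \ y) ∪ (y \ x) from rfl]
    exact Finset.prod_union disjoint_sdiff_sdiff
  have h2 := Finset.prod_inter_mul_prod_sdiff x y f
  have h3 := Finset.prod_inter_mul_prod_sdiff y x f
  have h4 : (∏ r ∈ x ∩ y, f r) * ∏ r ∈ y ∩ x, f r = 1 := by
    rw [Finset.inter_comm y x, ← Finset.prod_mul_distrib]
    refine Finset.prod_eq_one fun r _ => ?_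
    rcases hf r with h | h <;> rw [h] <;> norm_num
  rw [h1, ← h2, ← h3]
  calc (∏ r ∈ x \ y, f r) * ∏ r ∈ y \ x, f r
      = ((∏ r ∈ x ∩ y, f r) * ∏ r ∈ y ∩ x, f r) * ((∏ r ∈ x \ y, f r) * ∏ r ∈ y \ x, f r) := by
        rw [h4, one_mul]
    _ = _ := by ring

theorem de_B_symm {a : ℕ → ℕ → ℤ} (ha : ∀ r p, a r p = 1 ∨ a r p = -1) {δ : ℕ → ℤ}
    (hδ : ∀ p, δ p = 1 ∨ δ p = -1) (x y : Finset ℕ) (p : ℕ) :
    de_B a δ (symmDiff x y) p = de_B a δ x p * de_B a δ y p := by
  unfold de_B
  refine de_symm _ (fun r => ?_) x y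
  split_ifs
  · exact hδ p
  · exact ha r p

theorem de_B_notMem {a : ℕ → ℕ → ℤ} {δ δ' : ℕ → ℤ} {x : Finset ℕ} {p : ℕ} (h : p ∉ x ∨ δ p = δ' p) :
    de_B a δ x p = de_B a δ' x p := by
  unfold de_B
  refine Finset.prod_congr rfl fun r hr => ?_
  split_ifs with h1
  · rcases h with h | h
    · exact absurd (h1 ▸ hr) h
    · exact h
  · rfl

theorem de_B_flip {a : ℕ → ℕ → ℤ} {δ δ' : ℕ → ℤ} {x : Finset ℕ} {p : ℕ} (hp : p ∈ x)
    (h : δ' p = - δ p) : de_B a δ' x p = - de_B a δ x p := by
  unfold de_B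
  rw [← Finset.mul_prod_erase x _ hp, ← Finset.mul_prod_erase x _ hp, if_pos rfl, if_pos rfl, h, neg_mul]
  congr 2
  refine Finset.prod_congr rfl fun r hr => ?_
  rw [if_neg (Finset.ne_of_mem_erase hr), if_neg (Finset.ne_of_mem_erase hr)]

theorem de_B_sign {a : ℕ → ℕ → ℤ} (ha : ∀ r p, a r p = 1 ∨ a r p = -1) {δ : ℕ → ℤ}
    (hδ : ∀ p, δ p = 1 ∨ δ p = -1) (x : Finset ℕ) (p : ℕ) :
    de_B a δ x p = 1 ∨ de_B a δ x p = -1 := by
  unfold de_B
  induction x using Finset.induction_on with
  | empty => exact Or.inl rfl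
  | insert r x hr ih =>
    rw [Finset.prod_insert hr]
    have h1 : (if r = p then δ p else a r p) = 1 ∨ (if r = p then δ p else a r p) = -1 := by
      split_ifs
      · exact hδ p
      · exact ha r p
    rcases h1 with h1 | h1 <;> rcases ih with h2 | h2 <;> rw [h1, h2] <;> norm_num

theorem de_symm_empty {x y : Finset ℕ} (h : symmDiff x y = ∅) : x = y := by
  rw [← Finset.bot_eq_empty] at h
  exact symmDiff_eq_bot.1 h

/-- some diagonal makes the matrix non-degenerate -/
theorem de_abs1 (a : ℕ → ℕ → ℤ) (ha : ∀ r p, a r p = 1 ∨ a r p = -1) (P : Finset ℕ) :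
    ∃ δ : ℕ → ℤ, (∀ p, δ p = 1 ∨ δ p = -1) ∧
      ∀ x ⊆ P, (∀ p ∈ P, de_B a δ x p = 1) → x = ∅ := by
  induction P using Finset.induction_on with
  | empty => exact ⟨fun _ => 1, fun _ => Or.inl rfl, fun x hx _ => Finset.subset_empty.1 hx⟩
  | insert p S hp ih =>
    obtain ⟨δ, hδ, h⟩ := ih
    -- at most one set containing `p` satisfies the conditions at the elements of `S`
    by_cases hx0 : ∃ x0 ⊆ insert p S, p ∈ x0 ∧ ∀ r ∈ S, de_B a δ x0 r = 1
    · obtain ⟨x0, hx0S, hpx0, hx0⟩ := hx0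
      have hne : ∀ r ∈ S, r ≠ p := fun r hr h => hp (h ▸ hr)
      obtain ⟨δ', hδ', hd1, hd2⟩ : ∃ δ' : ℕ → ℤ, (∀ p, δ' p = 1 ∨ δ' p = -1) ∧
          (∀ r, r ≠ p → δ' r = δ r) ∧ de_B a δ' x0 p = -1 := by
        rcases de_B_sign ha hδ x0 p with h1 | h1
        · refine ⟨Function.update δ p (- δ p), fun r => ?_, fun r hr => Function.update_of_ne hr _ _, ?_⟩
          · rcases eq_or_ne r p with rfl | hr
            · rw [Function.update_self]
              rcases hδ r with h2 | h2 <;> rw [h2] <;> norm_num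
            · rw [Function.update_of_ne hr]
              exact hδ r
          · rw [de_B_flip (δ := δ) hpx0 (Function.update_self _ _ _), h1]
        · exact ⟨δ, hδ, fun _ _ => rfl, h1⟩
      refine ⟨δ', hδ', fun x hx hB => ?_⟩
      have hB' : ∀ r ∈ S, de_B a δ x r = 1 := fun r hr => by
        rw [de_B_notMem (Or.inr (hd1 r (hne r hr)).symm)]
        exact hB r (Finset.mem_insert_of_mem hr)
      by_cases hpx : p ∈ x
      · exfalso
        have h3 : symmDiff x x0 = ∅ := by
          refine h _ (fun r hr => ?_) fun r hr => ?_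
          · rw [Finset.mem_symmDiff] at hr
            have h4 : r ∈ insert p S := by
              rcases hr with ⟨h5, -⟩ | ⟨h5, -⟩
              · exact hx h5
              · exact hx0S h5
            rcases Finset.mem_insert.1 h4 with rfl | h5
            · rcases hr with ⟨-, h6⟩ | ⟨-, h6⟩
              · exact absurd hpx0 h6
              · exact absurd hpx h6
            · exact h5
          · rw [de_B_symm ha hδ, hB' r hr, hx0 r hr, one_mul]
        rw [de_symm_empty h3] at hB
        have h4 := hB p (Finset.mem_insert_self _ _)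
        rw [hd2] at h4
        norm_num at h4
      · refine h x (fun r hr => ?_) hB'
        rcases Finset.mem_insert.1 (hx hr) with rfl | h5
        · exact absurd hr hpx
        · exact h5
    · refine ⟨δ, hδ, fun x hx hB => ?_⟩
      by_cases hpx : p ∈ x
      · exact absurd ⟨x, hx, hpx, fun r hr => hB r (Finset.mem_insert_of_mem hr)⟩ hx0
      · refine h x (fun r hr => ?_) fun r hr => hB r (Finset.mem_insert_of_mem hr)
        rcases Finset.mem_insert.1 (hx hr) with rfl | h5
        · exact absurd hr hpx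
        · exact h5

/-- some diagonal makes the kernel of order two -/
theorem de_abs2 (a : ℕ → ℕ → ℤ) (ha : ∀ r p, a r p = 1 ∨ a r p = -1) (P : Finset ℕ)
    (hP : P.Nonempty) :
    ∃ δ : ℕ → ℤ, (∀ p, δ p = 1 ∨ δ p = -1) ∧ ∃ x0 ⊆ P, x0 ≠ ∅ ∧
      (∀ p ∈ P, de_B a δ x0 p = 1) ∧ ∀ x ⊆ P, (∀ p ∈ P, de_B a δ x p = 1) → x = ∅ ∨ x = x0 := by
  obtain ⟨δ1, hδ1, h1⟩ := de_abs1 a ha P
  -- a degenerate diagonal
  obtain ⟨δ0, hδ0, x1, hx1, hx1', h0⟩ : ∃ δ0 : ℕ → ℤ, (∀ p, δ0 p = 1 ∨ δ0 p = -1) ∧
      ∃ x1 ⊆ P, x1 ≠ ∅ ∧ ∀ p ∈ P, de_B a δ0 x1 p = 1 := by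
    refine ⟨fun p => ∏ r ∈ P.erase p, a r p, fun p => ?_, P, subset_rfl, hP.ne_empty, fun p hp => ?_⟩
    · exact Finset.prod_induction _ (fun z => z = 1 ∨ z = -1)
        (fun u v hu hv => by rcases hu with rfl | rfl <;> rcases hv with rfl | rfl <;> norm_num)
        (Or.inl rfl) fun r _ => ha r p
    · unfold de_B
      rw [← Finset.mul_prod_erase P _ hp, if_pos rfl]
      have h2 : ∏ r ∈ P.erase p, (if r = p then ∏ r ∈ P.erase p, a r p else a r p) =
          ∏ r ∈ P.erase p, a r p :=
        Finset.prod_congr rfl fun r hr => by rw [if_neg (Finset.ne_of_mem_erase hr)]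
      rw [h2, ← Finset.prod_mul_distrib]
      refine Finset.prod_eq_one fun r _ => ?_
      rcases ha r p with h | h <;> rw [h] <;> norm_num
  -- mixed diagonals
  have key : ∀ S : Finset ℕ, (∀ x ⊆ P, (∀ p ∈ P, de_B a (fun p => if p ∈ S then δ0 p else δ1 p) x p = 1) →
      x = ∅) ∨ ∃ δ : ℕ → ℤ, (∀ p, δ p = 1 ∨ δ p = -1) ∧ ∃ x0 ⊆ P, x0 ≠ ∅ ∧
      (∀ p ∈ P, de_B a δ x0 p = 1) ∧ ∀ x ⊆ P, (∀ p ∈ P, de_B a δ x p = 1) → x = ∅ ∨ x = x0 := by
    intro S
    induction S using Finset.induction_on with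
    | empty => exact Or.inl (by simpa using h1)
    | insert p S hp ih =>
      rcases ih with ih | ih
      · by_cases hcase : ∀ x ⊆ P, (∀ r ∈ P, de_B a (fun r => if r ∈ insert p S then δ0 r else δ1 r) x r = 1) →
          x = ∅
        · exact Or.inl hcase
        · right
          push Not at hcase
          obtain ⟨x0, hx0, hB0, hne⟩ := hcase
          have hs' : ∀ r, (if r ∈ insert p S then δ0 r else δ1 r) = 1 ∨
              (if r ∈ insert p S then δ0 r else δ1 r) = -1 := by
            intro r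
            split_ifs
            · exact hδ0 r
            · exact hδ1 r
          have hno : ∀ x ⊆ P, p ∉ x →
              (∀ r ∈ P, de_B a (fun r => if r ∈ insert p S then δ0 r else δ1 r) x r = 1) → x = ∅ := by
            intro x hx hpx hB
            refine ih x hx fun r hr => ?_
            rw [← hB r hr]
            refine de_B_notMem ?_
            rcases eq_or_ne r p with rfl | hrp
            · exact Or.inl hpx
            · right
              simp only [Finset.mem_insert, hrp, false_or]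
          have hp0 : p ∈ x0 := by
            by_contra h
            exact hne.ne_empty (hno x0 hx0 h hB0)
          refine ⟨_, hs', x0, hx0, hne.ne_empty, hB0, fun x hx hB => ?_⟩
          by_cases hpx : p ∈ x
          · right
            refine de_symm_empty (hno _ (fun r hr => ?_) (fun h => ?_) fun r hr => ?_)
            · rw [Finset.mem_symmDiff] at hr
              rcases hr with ⟨h5, -⟩ | ⟨h5, -⟩
              · exact hx h5
              · exact hx0 h5
            · rw [Finset.mem_symmDiff] at h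
              rcases h with ⟨-, h6⟩ | ⟨-, h6⟩
              · exact h6 hp0
              · exact h6 hpx
            · rw [de_B_symm ha hs', hB r hr, hB0 r hr, one_mul]
          · exact Or.inl (hno x hx hpx hB)
      · exact Or.inr ih
  rcases key P with h2 | h2
  · exfalso
    refine hx1' (h2 x1 hx1 fun p hp => ?_)
    rw [← h0 p hp]
    exact de_B_notMem (Or.inr (if_pos hp))
  · exact h2

end Pool.Agent.GL
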