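import Pool.Agent.Lib_helper51.GL.DefsD
import Pool.Agent.Lib_helper13.GL.DEabs

/-!
# Project GL (MP_05dcdc_nt): block DE, signs with a given kernel
-/

set_option autoImplicit false

namespace Pool.Agent.GL

open Finset Pool.Agent.PQ

/-- the signs `(r/p)` -/
def de_a (r p : ℕ) : ℤ := if jacobiSym (r : ℤ) p = -1 then -1 else 1

theorem de_a_sign (r p : ℕ) : de_a r p = 1 ∨ de_a r p = -1 := by
  unfold de_a
  split_ifs
  · exact Or.inr rfl
  · exact Or.inl rfl

theorem de_a_eq {r p : ℕ} (hr : r.Prime) (hp : p.Prime) (h : r ≠ p) : jacobiSym (r : ℤ) p = de_a r p := by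
  have h1 : jacobiSym (r : ℤ) p = 1 ∨ jacobiSym (r : ℤ) p = -1 := by
    refine jacobiSym.eq_one_or_neg_one ?_
    have : Nat.Coprime r p := (Nat.coprime_primes hr hp).2 h
    simpa using this
  unfold de_a
  rcases h1 with h1 | h1 <;> rw [h1] <;> norm_num

theorem de_prod {x : Finset ℕ} {p : ℕ} (hp : p.Prime) (hx : ∀ r ∈ x, r.Prime ∧ r ≠ p) :
    jacobiSym ((∏ r ∈ x, r : ℕ) : ℤ) p = ∏ r ∈ x, de_a r p := by
  induction x using Finset.induction_on with
  | empty =>
    rw [Finset.prod_empty, Finset.prod_empty, Nat.cast_one]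
    exact jacobiSym.one_left p
  | insert r x hr ih =>
    rw [Finset.prod_insert hr, Finset.prod_insert hr, Nat.cast_mul, jacobiSym.mul_left,
      ih fun s hs => hx s (Finset.mem_insert_of_mem hs)]
    obtain ⟨h1, h2⟩ := hx r (Finset.mem_insert_self _ _)
    rw [de_a_eq h1 hp h2]

/-- the signs which belong to a diagonal -/
def de_beta (m : ℕ) (δ : ℕ → ℤ) (p : ℕ) : ℤ := δ p * ∏ r ∈ m.primeFactors.erase p, de_a r p

theorem de_beta_sign (m : ℕ) {δ : ℕ → ℤ} (hδ : ∀ p, δ p = 1 ∨ δ p = -1) (p : ℕ) :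
    de_beta m δ p = 1 ∨ de_beta m δ p = -1 := by
  unfold de_beta
  have h1 : (∏ r ∈ m.primeFactors.erase p, de_a r p) = 1 ∨
      (∏ r ∈ m.primeFactors.erase p, de_a r p) = -1 :=
    Finset.prod_induction _ (fun z => z = 1 ∨ z = -1)
      (fun u v hu hv => by rcases hu with rfl | rfl <;> rcases hv with rfl | rfl <;> norm_num)
      (Or.inl rfl) fun r _ => de_a_sign r p
  rcases hδ p with h2 | h2 <;> rcases h1 with h1 | h1 <;> rw [h1, h2] <;> norm_num

theorem de_link {m : ℕ} (hm : MM m) (δ : ℕ → ℤ) {d : ℕ} (hd : d ∣ m) {p : ℕ} (hp : p.Prime) (hpm : p ∣ m) :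
    ((¬ p ∣ d → jacobiSym (d : ℤ) p = 1) ∧ (p ∣ d → jacobiSym ((m / d : ℕ) : ℤ) p * de_beta m δ p = 1)) ↔
      de_B de_a δ d.primeFactors p = 1 := by
  have hm0 : m ≠ 0 := hm.1.ne_zero
  have hd0 : d ≠ 0 := ne_zero_of_dvd_ne_zero hm0 hd
  have hds : Squarefree d := hm.1.squarefree_of_dvd hd
  have hsub : d.primeFactors ⊆ m.primeFactors := Nat.primeFactors_mono hd hm0
  by_cases hpd : p ∣ d
  · have hpx : p ∈ d.primeFactors := Nat.mem_primeFactors.2 ⟨hp, hpd, hd0⟩
    have h1 : de_B de_a δ d.primeFactors p = δ p * ∏ r ∈ d.primeFactors.erase p, de_a r p := by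
      unfold de_B
      rw [← Finset.mul_prod_erase _ _ hpx, if_pos rfl]
      congr 1
      exact Finset.prod_congr rfl fun r hr => by rw [if_neg (Finset.ne_of_mem_erase hr)]
    have h2 : jacobiSym ((m / d : ℕ) : ℤ) p = ∏ r ∈ m.primeFactors \ d.primeFactors, de_a r p := by
      have h3 : m / d = ∏ r ∈ m.primeFactors \ d.primeFactors, r := by
        have h4 := Nat.prod_primeFactors_of_squarefree hm.1
        have h5 := Nat.prod_primeFactors_of_squarefree hds
        rw [← Finset.prod_sdiff hsub, h5] at h4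
        have h6 : m / d = ((∏ r ∈ m.primeFactors \ d.primeFactors, r) * d) / d := by rw [h4]
        rw [h6]
        exact Nat.mul_div_cancel _ (Nat.pos_of_ne_zero hd0)
      rw [h3]
      refine de_prod hp fun r hr => ?_
      obtain ⟨h4, h5⟩ := Finset.mem_sdiff.1 hr
      exact ⟨Nat.prime_of_mem_primeFactors h4, fun h => h5 (h ▸ hpx)⟩
    have h3 : ∏ r ∈ m.primeFactors.erase p, de_a r p =
        (∏ r ∈ m.primeFactors \ d.primeFactors, de_a r p) * ∏ r ∈ d.primeFactors.erase p, de_a r p := by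
      rw [← Finset.prod_sdiff (Finset.erase_subset_erase p hsub)]
      congr 1
      refine Finset.prod_congr ?_ fun _ _ => rfl
      ext r
      simp only [Finset.mem_sdiff, Finset.mem_erase]
      constructor
      · rintro ⟨⟨h4, h5⟩, h6⟩
        exact ⟨h5, fun h => h6 ⟨h4, h⟩⟩
      · rintro ⟨h4, h5⟩
        exact ⟨⟨fun h => h5 (h ▸ hpx), h4⟩, fun h => h5 h.2⟩
    have h4 : (∏ r ∈ m.primeFactors \ d.primeFactors, de_a r p) *
        (∏ r ∈ m.primeFactors \ d.primeFactors, de_a r p) = 1 := by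
      rw [← Finset.prod_mul_distrib]
      refine Finset.prod_eq_one fun r _ => ?_
      rcases de_a_sign r p with h | h <;> rw [h] <;> norm_num
    have h5 : jacobiSym ((m / d : ℕ) : ℤ) p * de_beta m δ p = de_B de_a δ d.primeFactors p := by
      rw [h1, h2]
      unfold de_beta
      rw [h3]
      calc _ = ((∏ r ∈ m.primeFactors \ d.primeFactors, de_a r p) *
            (∏ r ∈ m.primeFactors \ d.primeFactors, de_a r p)) *
              (δ p * ∏ r ∈ d.primeFactors.erase p, de_a r p) := by ring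
        _ = _ := by rw [h4, one_mul]
    rw [h5]
    exact ⟨fun h => h.2 hpd, fun h => ⟨fun h' => absurd hpd h', fun _ => h⟩⟩
  · have hpx : p ∉ d.primeFactors := fun h => hpd (Nat.dvd_of_mem_primeFactors h)
    have h1 : de_B de_a δ d.primeFactors p = jacobiSym (d : ℤ) p := by
      have h5 := Nat.prod_primeFactors_of_squarefree hds
      have h6 : jacobiSym (d : ℤ) p = ∏ r ∈ d.primeFactors, de_a r p := by
        conv_lhs => rw [← h5]
        exact de_prod hp fun r hr => ⟨Nat.prime_of_mem_primeFactors hr, fun h => hpx (h ▸ hr)⟩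
      rw [h6]
      unfold de_B
      refine Finset.prod_congr rfl fun r hr => if_neg fun h => ?_
      rw [h] at hr
      exact hpx hr
    rw [h1]
    exact ⟨fun h => h.1 hpd, fun h => ⟨fun _ => h, fun h' => absurd h' hpd⟩⟩

theorem de_mem {m : ℕ} (hm : MM m) (δ : ℕ → ℤ) {d : ℕ} :
    d ∈ KB m (de_beta m δ) ↔ d ∣ m ∧ ∀ p ∈ m.primeFactors, de_B de_a δ d.primeFactors p = 1 := by
  simp only [KB, Finset.mem_filter, Nat.mem_divisors]
  constructor
  · rintro ⟨⟨h1, -⟩, h2⟩
    refine ⟨h1, fun p hp => ?_⟩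
    have hp1 := Nat.prime_of_mem_primeFactors hp
    have hp2 := Nat.dvd_of_mem_primeFactors hp
    exact (de_link hm δ h1 hp1 hp2).1 (h2 p hp1 hp2)
  · rintro ⟨h1, h2⟩
    refine ⟨⟨h1, hm.1.ne_zero⟩, fun p hp1 hp2 => ?_⟩
    exact (de_link hm δ h1 hp1 hp2).2 (h2 p (Nat.mem_primeFactors.2 ⟨hp1, hp2, hm.1.ne_zero⟩))

theorem de_one_mem (m : ℕ) (β : ℕ → ℤ) (hm : MM m) : 1 ∈ KB m β := by
  simp only [KB, Finset.mem_filter, Nat.mem_divisors]
  refine ⟨⟨one_dvd _, hm.1.ne_zero⟩, fun p hp _ => ⟨fun _ => ?_, fun h => ?_⟩⟩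
  · rw [Nat.cast_one]
    exact jacobiSym.one_left p
  · exact absurd (Nat.dvd_one.1 h) hp.one_lt.ne'

theorem de_one (m : ℕ) (hm : MM m) :
    ∃ β : ℕ → ℤ, (∀ p, β p = 1 ∨ β p = -1) ∧ KB m β = {1} := by
  obtain ⟨δ, hδ, h⟩ := de_abs1 de_a de_a_sign m.primeFactors
  refine ⟨de_beta m δ, de_beta_sign m hδ, ?_⟩
  ext d
  rw [Finset.mem_singleton]
  constructor
  · intro hd
    obtain ⟨h1, h2⟩ := (de_mem hm δ).1 hd
    have h3 := h d.primeFactors (Nat.primeFactors_mono h1 hm.1.ne_zero) h2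
    rcases Nat.primeFactors_eq_empty.1 h3 with h4 | h4
    · exact absurd h4 (ne_zero_of_dvd_ne_zero hm.1.ne_zero h1)
    · exact h4
  · rintro rfl
    exact de_one_mem m _ hm

theorem de_two (m : ℕ) (hm : MM m) (h1 : 1 < m) :
    ∃ β : ℕ → ℤ, (∀ p, β p = 1 ∨ β p = -1) ∧ ∃ d : ℕ, d ≠ 1 ∧ KB m β = {1, d} := by
  obtain ⟨δ, hδ, x0, hx0, hne, hB, h⟩ := de_abs2 de_a de_a_sign m.primeFactors
    (Nat.nonempty_primeFactors.2 h1)
  have hpr : ∀ r ∈ x0, r.Prime := fun r hr => Nat.prime_of_mem_primeFactors (hx0 hr)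
  have hd0 : (∏ r ∈ x0, r).primeFactors = x0 := Nat.primeFactors_prod hpr
  have hdm : (∏ r ∈ x0, r) ∣ m := by
    conv_rhs => rw [← Nat.prod_primeFactors_of_squarefree hm.1]
    exact Finset.prod_dvd_prod_of_subset _ _ _ hx0
  refine ⟨de_beta m δ, de_beta_sign m hδ, ∏ r ∈ x0, r, fun h' => ?_, ?_⟩
  · rw [h', Nat.primeFactors_one] at hd0
    exact hne hd0.symm
  · ext d
    rw [Finset.mem_insert, Finset.mem_singleton]
    constructor
    · intro hd
      obtain ⟨h1, h2⟩ := (de_mem hm δ).1 hd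
      rcases h d.primeFactors (Nat.primeFactors_mono h1 hm.1.ne_zero) h2 with h3 | h3
      · left
        rcases Nat.primeFactors_eq_empty.1 h3 with h4 | h4
        · exact absurd h4 (ne_zero_of_dvd_ne_zero hm.1.ne_zero h1)
        · exact h4
      · right
        rw [← h3]
        exact (Nat.prod_primeFactors_of_squarefree (hm.1.squarefree_of_dvd h1)).symm
    · rintro (rfl | rfl)
      · exact de_one_mem m _ hm
      · exact (de_mem hm δ).2 ⟨hdm, by rw [hd0]; exact hB⟩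

end Pool.Agent.GL
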